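import Pool.Agent.N928.FG.Stm

/-!
# FG/CRIT: the critical parameter exists

Leaf of helper928's project FG.
-/

set_option autoImplicit false

namespace Pool.Agent.N106.FG

open Pool.Agent.N928.FG Filter Topology

lemma D_one (β : ℝ) : D β 1 = 2 * (2 * (∑' n : ℕ, an β n) ^ 2 - (∑' n : ℕ, an β n) -
    ∑' n : ℕ, (n : ℝ) * an β n) := by
  unfold D W GG
  simp only [one_pow, mul_one]
  ring

lemma an_nonneg (h : S_S1) {β : ℝ} (h0 : 0 < β) (h1 : β ≤ 1 / 2) (n : ℕ) : 0 ≤ an β n := by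
  unfold an
  refine Finset.prod_nonneg fun i _ => ?_
  refine (h (bet β i) ?_ ?_ n 0).1
  · unfold bet; split_ifs
    · norm_num
    · exact h0
  · unfold bet; split_ifs
    · exact le_rfl
    · exact h1

lemma an_zero (β : ℝ) : an β 0 = 1 := by
  unfold an
  refine Finset.prod_eq_one fun i _ => ?_
  simp [s]

lemma an_summable (h : S_S1) (hAB : S_AB) {β : ℝ} (h0 : 0 < β) (h1 : β ≤ 1 / 2) :
    Summable (fun n : ℕ => an β n) := by
  obtain ⟨c, C, _, hC, hb⟩ := hAB.1 β h0 h1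
  rw [← summable_nat_add_iff 1]
  have h2 : Summable (fun n : ℕ => C / (((n + 1 : ℕ) : ℝ)) ^ 3) := by
    have h3 : Summable (fun n : ℕ => C * (1 / (n : ℝ) ^ 3)) :=
      (Real.summable_one_div_nat_pow.mpr (by norm_num)).mul_left C
    have h4 := (summable_nat_add_iff 1).mpr h3
    refine h4.congr fun n => ?_
    rw [mul_one_div]
  exact Summable.of_nonneg_of_le (fun n => an_nonneg h h0 h1 _) (fun n => (hb (n + 1) (by omega)).2) h2

/-- FG/CRIT -/
theorem t_CRIT : S_CONT → S_UP → S_LOW → S_AB → S_S1 → S_CRIT := by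
  intro hC hU hL hAB hS
  obtain ⟨b, hb0, hb1, hb⟩ := hL
  obtain ⟨hc1, hc2⟩ := hC b hb0 hb1
  have hcont : ContinuousOn (fun β => D β 1) (Set.Icc b (1 / 2)) := by
    have : (fun β => D β 1) = fun β => 2 * (2 * (∑' n : ℕ, an β n) ^ 2 - (∑' n : ℕ, an β n) -
        ∑' n : ℕ, (n : ℝ) * an β n) := funext D_one
    rw [this]
    exact continuousOn_const.mul (((continuousOn_const.mul (hc1.pow 2)).sub hc1).sub hc2)
  have hneg : D b 1 ≤ 0 := by
    rw [D_one]
    have h1 : 0 ≤ ∑' n : ℕ, an b n := tsum_nonneg fun n => an_nonneg hS hb0 hb1 n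
    linarith
  have hpos : 0 ≤ D (1 / 2) 1 := by
    rw [D_one]
    have hhalf : (0 : ℝ) < 1 / 2 := by norm_num
    have h1 : (1 : ℝ) ≤ ∑' n : ℕ, an (1 / 2) n := by
      have h2 := (an_summable hS hAB hhalf le_rfl).le_tsum 0
        (fun n _ => an_nonneg hS hhalf le_rfl n)
      rwa [an_zero] at h2
    have h3 : ∑' n : ℕ, (n : ℝ) * an (1 / 2) n < 1 := hU
    nlinarith
  obtain ⟨β, hβ, hβ0⟩ := intermediate_value_Icc hb1 hcont ⟨hneg, hpos⟩
  exact ⟨β, lt_of_lt_of_le hb0 hβ.1, hβ.2, hβ0⟩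

end Pool.Agent.N106.FG
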